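import Pool.Agent.helper11.TX.Spec

/-!
# Row tx:PA (MP_bf63dc_nt): upper bound for the number of admissible triples, from CR
-/

set_option autoImplicit false

namespace Pool.Agent.helper11.TX

open Finset

open Classical in
private noncomputable def PA_f (n : ℕ) (l : ℕ) (c : ℤ) : ℝ := if (l ∣ n ↔ ¬ (l : ℤ) ∣ c) then 1 else 0

private noncomputable def PA_g (l : ℕ) : ℝ := if l = 2 then 1 else (l : ℝ) - 1

private theorem PA_sum_not (l : ℕ) (hl : 0 < l) :
    ∑ r ∈ range l, (if ¬ ((l : ℤ) ∣ ((r : ℕ) : ℤ)) then (1 : ℝ) else 0) = (l : ℝ) - 1 := by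
  obtain ⟨m, rfl⟩ : ∃ m, l = m + 1 := ⟨l - 1, by omega⟩
  rw [Finset.sum_range_succ']
  have h0 : (if ¬ (((m + 1 : ℕ) : ℤ) ∣ ((0 : ℕ) : ℤ)) then (1 : ℝ) else 0) = 0 := by simp
  rw [h0, add_zero]
  have h1 : ∀ r ∈ range m, (if ¬ (((m + 1 : ℕ) : ℤ) ∣ ((r + 1 : ℕ) : ℤ)) then (1 : ℝ) else 0) = 1 := by
    intro r hr
    rw [Finset.mem_range] at hr
    rw [if_pos]
    intro h
    have h2 : (m + 1) ∣ (r + 1) := by exact_mod_cast h
    have := Nat.le_of_dvd (by omega) h2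
    omega
  rw [Finset.sum_congr rfl h1]
  simp

private theorem PA_sumf (n l : ℕ) (hl : l.Prime) (hn : ¬ l ∣ n → l = 2) :
    ∑ r ∈ range l, PA_f n l ((r : ℕ) : ℤ) = PA_g l := by
  classical
  by_cases h : l ∣ n
  · have h1 : ∀ r ∈ range l, PA_f n l ((r : ℕ) : ℤ) = (if ¬ ((l : ℤ) ∣ ((r : ℕ) : ℤ)) then (1 : ℝ) else 0) := by
      intro r _
      unfold PA_f
      simp only [h, true_iff]
    rw [Finset.sum_congr rfl h1, PA_sum_not l hl.pos]
    unfold PA_g
    split_ifs with h2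
    · rw [h2]; norm_num
    · rfl
  · have h2 := hn h
    subst h2
    unfold PA_f PA_g
    rw [if_pos rfl, Finset.sum_range_succ, Finset.sum_range_one]
    simp only [h, false_iff, not_not]
    norm_num

private theorem PA_inner (hCR : CR_stmt) (a b : ℕ) (ha : 0 < a) (hb : 0 < b) (u : ℤ) (L : ℕ) :
    ∀ [DecidablePred (Adm a b)], ∑ c ∈ Ioc u (u + L) with Adm a b c, (1 : ℝ) ≤
      (L : ℝ) / 2 * yy 2 (a * b) + (a : ℝ) * b := by
  intro inst
  classical
  have hab : a * b ≠ 0 := by positivity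
  set P : Finset ℕ := (2 * (a * b)).primeFactors with hP
  have hPp : ∀ l ∈ P, l.Prime := fun l hl => Nat.prime_of_mem_primeFactors hl
  have hP2 : ∀ l ∈ P, ¬ l ∣ a * b → l = 2 := by
    intro l hl h
    have h1 : l ∣ 2 * (a * b) := Nat.dvd_of_mem_primeFactors hl
    rcases (hPp l hl).dvd_mul.mp h1 with h2 | h2
    · exact (Nat.prime_dvd_prime_iff_eq (hPp l hl) Nat.prime_two).mp h2
    · exact absurd h2 h
  have h2P : 2 ∈ P := by
    rw [hP, Nat.mem_primeFactors]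
    exact ⟨Nat.prime_two, Nat.dvd_mul_right _ _, by omega⟩
  have hCR' := (hCR P (PA_f (a * b)) hPp (by
      intro l _ c
      unfold PA_f
      split_ifs <;> norm_num) (by
      intro l _ c k
      unfold PA_f
      have : (l : ℤ) ∣ c + l * k ↔ (l : ℤ) ∣ c := by
        constructor
        · intro h; exact (Int.dvd_add_left (Dvd.intro _ rfl)).mp h
        · intro h; exact Int.dvd_add h (Dvd.intro _ rfl)
      simp only [this]) u L).1
  have hsum : ∑ c ∈ Ioc u (u + L) with Adm a b c, (1 : ℝ) ≤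
      ∑ c ∈ Ioc u (u + L), ∏ l ∈ P, PA_f (a * b) l c := by
    rw [Finset.sum_filter]
    refine Finset.sum_le_sum fun c _ => ?_
    split_ifs with hA
    · refine le_of_eq (Eq.symm (Finset.prod_eq_one fun l hl => ?_))
      unfold PA_f
      rw [if_pos]
      obtain ⟨_, _, _, _, hac, hbc, hodd⟩ := hA
      by_cases hd : l ∣ a * b
      · refine ⟨fun _ hlc => ?_, fun _ => hd⟩
        have hpl := hPp l hl
        rcases hpl.dvd_mul.mp hd with h1 | h1
        · have h2 : IsUnit (l : ℤ) := hac.isUnit_of_dvd' (by exact_mod_cast h1) hlc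
          rw [Int.isUnit_iff_natAbs_eq, Int.natAbs_natCast] at h2
          exact hpl.one_lt.ne' h2
        · have h2 : IsUnit (l : ℤ) := hbc.isUnit_of_dvd' (by exact_mod_cast h1) hlc
          rw [Int.isUnit_iff_natAbs_eq, Int.natAbs_natCast] at h2
          exact hpl.one_lt.ne' h2
      · refine ⟨fun h => absurd h hd, fun hlc => ?_⟩
        exfalso
        have h2 := hP2 l hl hd
        subst h2
        apply hodd
        have ha2 : ¬ 2 ∣ a := fun h => hd (Dvd.dvd.mul_right h b)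
        have hb2 : ¬ 2 ∣ b := fun h => hd (Dvd.dvd.mul_left h a)
        refine ⟨?_, ?_, ?_⟩
        · exact Nat.odd_iff.mpr (by omega)
        · exact Nat.odd_iff.mpr (by omega)
        · rw [← Int.not_even_iff_odd]
          intro h
          exact hlc (by exact_mod_cast h.two_dvd)
    · refine Finset.prod_nonneg fun l _ => ?_
      unfold PA_f
      split_ifs <;> norm_num
  have hprod : ∏ l ∈ P, ∑ r ∈ range l, PA_f (a * b) l ((r : ℕ) : ℤ) = ∏ l ∈ P, PA_g l :=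
    Finset.prod_congr rfl fun l hl => PA_sumf (a * b) l (hPp l hl) (hP2 l hl)
  have hset : P.erase 2 = {l ∈ (a * b).primeFactors | ¬ l ∣ 2} := by
    ext l
    rw [Finset.mem_erase, Finset.mem_filter, hP, Nat.mem_primeFactors, Nat.mem_primeFactors]
    constructor
    · rintro ⟨h1, h2, h3, h4⟩
      have h5 : ¬ l ∣ 2 := fun h => h1 ((Nat.prime_dvd_prime_iff_eq h2 Nat.prime_two).mp h)
      refine ⟨⟨h2, ?_, hab⟩, h5⟩
      rcases h2.dvd_mul.mp h3 with h6 | h6
      · exact absurd h6 h5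
      · exact h6
    · rintro ⟨⟨h1, h2, _⟩, h4⟩
      refine ⟨fun h => h4 (h ▸ dvd_rfl), h1, Dvd.dvd.mul_left h2 2, by omega⟩
  have hG1 : ∏ l ∈ P, PA_g l = ∏ l ∈ P.erase 2, ((l : ℝ) - 1) := by
    rw [← Finset.mul_prod_erase P PA_g h2P]
    have : PA_g 2 = 1 := by unfold PA_g; simp
    rw [this, one_mul]
    refine Finset.prod_congr rfl fun l hl => ?_
    unfold PA_g
    rw [if_neg (Finset.ne_of_mem_erase hl)]
  have hpos : ∀ l ∈ P.erase 2, (1 : ℝ) ≤ l := by
    intro l hl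
    exact_mod_cast (hPp l (Finset.mem_of_mem_erase hl)).one_lt.le
  have hD : ∏ l ∈ P, (l : ℝ) = 2 * ∏ l ∈ P.erase 2, (l : ℝ) := by
    rw [← Finset.mul_prod_erase P (fun l : ℕ => (l : ℝ)) h2P]
    norm_num
  have hDpos : 0 < ∏ l ∈ P.erase 2, (l : ℝ) :=
    Finset.prod_pos fun l hl => by linarith [hpos l hl]
  have hyy : (∏ l ∈ P.erase 2, ((l : ℝ) - 1)) = (∏ l ∈ P.erase 2, (l : ℝ)) * yy 2 (a * b) := by
    unfold yy
    rw [← hset, ← Finset.prod_mul_distrib]
    refine Finset.prod_congr rfl fun l hl => ?_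
    have : (l : ℝ) ≠ 0 := by linarith [hpos l hl]
    field_simp
  have hle : ∏ l ∈ P.erase 2, ((l : ℝ) - 1) ≤ (a : ℝ) * b := by
    calc ∏ l ∈ P.erase 2, ((l : ℝ) - 1) ≤ ∏ l ∈ P.erase 2, (l : ℝ) :=
          Finset.prod_le_prod (fun l hl => by linarith [hpos l hl]) (fun l _ => by linarith)
      _ ≤ (a : ℝ) * b := by
          have h0 : ∏ l ∈ P.erase 2, l ∣ a * b := by
            rw [hset]
            exact (Finset.prod_dvd_prod_of_subset _ _ (fun l : ℕ => l) (Finset.filter_subset _ _)).trans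
              (Nat.prod_primeFactors_dvd (a * b))
          have h1 : ∏ l ∈ P.erase 2, l ≤ a * b := Nat.le_of_dvd (Nat.pos_of_ne_zero hab) h0
          have h2 : ((∏ l ∈ P.erase 2, l : ℕ) : ℝ) ≤ ((a * b : ℕ) : ℝ) := by exact_mod_cast h1
          rw [Nat.cast_prod, Nat.cast_mul] at h2
          exact h2
  calc ∑ c ∈ Ioc u (u + L) with Adm a b c, (1 : ℝ) ≤
      ∑ c ∈ Ioc u (u + L), ∏ l ∈ P, PA_f (a * b) l c := hsum
    _ ≤ ((L : ℝ) / (∏ l ∈ P, (l : ℝ)) + 1) * ∏ l ∈ P, ∑ r ∈ range l, PA_f (a * b) l ((r : ℕ) : ℤ) := hCR'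
    _ = (L : ℝ) / 2 * yy 2 (a * b) + ∏ l ∈ P.erase 2, ((l : ℝ) - 1) := by
        rw [hprod, hG1, hD, add_mul, one_mul]
        congr 1
        rw [hyy]
        field_simp
    _ ≤ (L : ℝ) / 2 * yy 2 (a * b) + (a : ℝ) * b := by linarith

private theorem PA_yy_nonneg (W n : ℕ) : 0 ≤ yy W n := by
  unfold yy
  refine Finset.prod_nonneg fun l hl => ?_
  have h1 : (1 : ℝ) ≤ l := by
    exact_mod_cast (Nat.prime_of_mem_primeFactors (Finset.mem_filter.mp hl).1).one_lt.le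
  have h2 : 1 / (l : ℝ) ≤ 1 := by
    rw [div_le_one (by linarith)]
    exact h1
  linarith

theorem PA (hCR : CR_stmt) : PA_stmt := by
  classical
  intro N δ hδ
  rcases Nat.eq_zero_or_pos N with hN | hN
  · subst hN
    refine ⟨0, fun M _ u => ?_⟩
    simp [Sm, VW]
  refine ⟨⌈2 * (N : ℝ) ^ 4 / δ⌉₊, fun M hM u => ?_⟩
  have hM1 : 2 * (N : ℝ) ^ 4 / δ ≤ M := (Nat.le_ceil _).trans (by exact_mod_cast hM)
  have hM2 : (N : ℝ) ^ 4 ≤ δ * (M / 2) := by
    rw [div_le_iff₀ hδ] at hM1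
    linarith
  have hVW : 1 ≤ VW 2 N := by
    unfold VW
    have h1 : (1 : ℕ) ∈ Icc 1 N := Finset.mem_Icc.mpr ⟨le_rfl, hN⟩
    have hin : ∀ a ∈ Icc 1 N, 0 ≤ ∑ b ∈ Icc 1 N with Nat.Coprime a b, yy 2 (a * b) / ((a : ℝ) * b) :=
      fun a _ => Finset.sum_nonneg fun b _ => div_nonneg (PA_yy_nonneg _ _) (by positivity)
    refine le_trans ?_ (Finset.single_le_sum hin h1)
    have h2 : (1 : ℕ) ∈ {b ∈ Icc 1 N | Nat.Coprime 1 b} :=
      Finset.mem_filter.mpr ⟨h1, Nat.coprime_one_left 1⟩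
    refine le_trans ?_ (Finset.single_le_sum (f := fun b : ℕ => yy 2 (1 * b) / (((1 : ℕ) : ℝ) * b))
      (fun b _ => div_nonneg (PA_yy_nonneg _ _) (by positivity)) h2)
    simp [yy]
  have hmain : Sm Adm (fun _ _ _ => 1) N M u ≤ (M : ℝ) / 2 * VW 2 N + (N : ℝ) ^ 4 := by
    unfold Sm VW
    have hb : ∀ a ∈ Icc 1 N, ∀ b ∈ Icc 1 N, 1 / ((a : ℝ) * (b : ℝ) ^ 2) *
        ∑ c ∈ Ioc ((b : ℤ) * u) ((b : ℤ) * (u + M)) with Adm a b c, (1 : ℝ) ≤
        (if Nat.Coprime a b then (M : ℝ) / 2 * (yy 2 (a * b) / ((a : ℝ) * b)) else 0) + (N : ℝ) ^ 2 := by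
      intro a ha b hb
      rw [Finset.mem_Icc] at ha hb
      have ha0 : (1 : ℝ) ≤ a := by exact_mod_cast ha.1
      have hb0 : (1 : ℝ) ≤ b := by exact_mod_cast hb.1
      have haN : (a : ℝ) ≤ N := by exact_mod_cast ha.2
      have hbN : (b : ℝ) ≤ N := by exact_mod_cast hb.2
      split_ifs with hc
      · have h1 := PA_inner hCR a b (by omega) (by omega) ((b : ℤ) * u) (b * M)
        have e1 : (b : ℤ) * u + ((b * M : ℕ) : ℤ) = (b : ℤ) * (u + M) := by push_cast; ring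
        rw [e1] at h1
        have h2 : 0 ≤ 1 / ((a : ℝ) * (b : ℝ) ^ 2) := by positivity
        refine (mul_le_mul_of_nonneg_left h1 h2).trans ?_
        have e2 : 1 / ((a : ℝ) * (b : ℝ) ^ 2) * (((b * M : ℕ) : ℝ) / 2 * yy 2 (a * b) + (a : ℝ) * b) =
            (M : ℝ) / 2 * (yy 2 (a * b) / ((a : ℝ) * b)) + 1 / (b : ℝ) := by
          push_cast
          field_simp
        rw [e2]
        have h3 : 1 / (b : ℝ) ≤ 1 := by
          rw [div_le_one (by linarith)]
          exact hb0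
        have h4 : (1 : ℝ) ≤ (N : ℝ) ^ 2 := by
          have : (1 : ℝ) ≤ N := by linarith
          nlinarith
        linarith
      · have h1 : {c ∈ Ioc ((b : ℤ) * u) ((b : ℤ) * (u + M)) | Adm a b c} = ∅ := by
          refine Finset.filter_eq_empty_iff.mpr fun c _ hA => hc hA.2.2.2.1
        rw [h1, Finset.sum_empty, mul_zero]
        positivity
    calc ∑ a ∈ Icc 1 N, ∑ b ∈ Icc 1 N, 1 / ((a : ℝ) * (b : ℝ) ^ 2) *
          ∑ c ∈ Ioc ((b : ℤ) * u) ((b : ℤ) * (u + M)) with Adm a b c, (1 : ℝ)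
        ≤ ∑ a ∈ Icc 1 N, ∑ b ∈ Icc 1 N,
          ((if Nat.Coprime a b then (M : ℝ) / 2 * (yy 2 (a * b) / ((a : ℝ) * b)) else 0) + (N : ℝ) ^ 2) :=
          Finset.sum_le_sum fun a ha => Finset.sum_le_sum fun b hb' => hb a ha b hb'
      _ = (M : ℝ) / 2 * (∑ a ∈ Icc 1 N, ∑ b ∈ Icc 1 N with Nat.Coprime a b,
            yy 2 (a * b) / ((a : ℝ) * b)) + (N : ℝ) ^ 4 := by
          simp only [Finset.sum_add_distrib, Finset.sum_const, Nat.card_Icc, nsmul_eq_mul]
          congr 1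
          · rw [Finset.mul_sum]
            refine Finset.sum_congr rfl fun a _ => ?_
            rw [Finset.sum_filter, Finset.mul_sum]
            refine Finset.sum_congr rfl fun b _ => ?_
            split_ifs
            · rfl
            · rw [mul_zero]
          · simp only [Nat.add_sub_cancel]
            ring
  have h5 : 0 ≤ δ * ((M : ℝ) / 2) := by positivity
  have h6 : δ * ((M : ℝ) / 2) * 1 ≤ δ * ((M : ℝ) / 2) * VW 2 N := mul_le_mul_of_nonneg_left hVW h5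
  calc Sm Adm (fun _ _ _ => 1) N M u ≤ (M : ℝ) / 2 * VW 2 N + (N : ℝ) ^ 4 := hmain
    _ ≤ (M : ℝ) / 2 * VW 2 N + δ * ((M : ℝ) / 2) * VW 2 N := by linarith
    _ = (1 + δ) * (M / 2) * VW 2 N := by ring

end Pool.Agent.helper11.TX
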